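import Mathlib
import Pool.Agent.H11.Fr

namespace Pool.Agent.Results.MP_d93d44_co.NotClosed

open Matrix Complex Polynomial

/-- `y` is the orthogonal projection `E_θ x` of `x` onto the `θ`-eigenspace of `A`. -/
def IsProj {V : Type} [Fintype V] (A : Matrix V V ℝ) (θ : ℝ) (x y : V → ℝ) : Prop :=
  A *ᵥ y = θ • y ∧ ∀ w, A *ᵥ w = θ • w → w ⬝ᵥ (x - y) = 0

/-- `C⁺`: the eigenvalues `θ` with `(E_θ)_{a,b} > 0`. -/
def Cplus {V : Type} [Fintype V] [DecidableEq V] (A : Matrix V V ℝ) (a b : V) : Set ℝ :=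
  {θ | ∃ y, IsProj A θ (Pi.single b 1) y ∧ 0 < y a}

/-- `C⁻`: the eigenvalues `θ` with `(E_θ)_{a,b} < 0`. -/
def Cminus {V : Type} [Fintype V] [DecidableEq V] (A : Matrix V V ℝ) (a b : V) : Set ℝ :=
  {θ | ∃ y, IsProj A θ (Pi.single b 1) y ∧ y a < 0}

theorem result : ∃ (V : Type) (_ : Fintype V) (_ : DecidableEq V) (G : SimpleGraph V)
    (_ : DecidableRel G.Adj) (a b : V) (t : ℝ), a ≠ b ∧ 0 < t ∧
      (∀ c, c ≠ a → c ≠ b → NormedSpace.exp ((I * t) • G.adjMatrix ℂ) a c = 0 ∧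
        NormedSpace.exp ((I * t) • G.adjMatrix ℂ) b c = 0) ∧
      NormedSpace.exp ((I * t) • G.adjMatrix ℂ) a a ≠ 0 ∧
      NormedSpace.exp ((I * t) • G.adjMatrix ℂ) a b ≠ 0 ∧
      ∃ θ ρ : ℝ, θ ∈ Cplus (G.adjMatrix ℝ) a b ∧ aeval ρ (minpoly ℚ θ) = 0 ∧
        ρ ∉ Cplus (G.adjMatrix ℝ) a b ∧ ρ ∈ Cminus (G.adjMatrix ℝ) a b := by
  obtain ⟨V, i1, i2, G, i3, a, y, hab, h1, h2, h3, h4⟩ := Pool.Agent.H11.Fr.main
  have rr : √2 * √2 = 2 := Real.mul_self_sqrt (by norm_num)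
  have r0 : 0 < √2 := by positivity
  have pr : ∀ k, IsProj (G.adjMatrix ℝ) (Pool.Agent.H11.Fr.θ k) (Pi.single (a 1) 1) (y 1 k) :=
    fun k => ⟨h1 1 k, fun w hw => h2 1 ▸
      Pool.Agent.H11.Fr.comp _ G.transpose_adjMatrix (y 1) (h1 1) k w hw⟩
  have ent : ∀ s c, NormedSpace.exp ((I * Pool.Agent.H11.Fr.τ) • G.adjMatrix ℂ) (a s) c =
      (NormedSpace.exp ((I * Pool.Agent.H11.Fr.τ) • G.adjMatrix ℂ) *ᵥ Pi.single (a s) 1) c := by
    intro s c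
    have := Matrix.exp_transpose ((I * Pool.Agent.H11.Fr.τ) • G.adjMatrix ℂ)
    rw [transpose_smul, G.transpose_adjMatrix] at this
    rw [mulVec_single_one, col_apply]
    exact congrFun (congrFun this _) _
  have nz : ∀ t, exp (I * Pool.Agent.H11.Fr.τ * 560) * -I * (√2 : ℝ) *
      (Pool.Agent.H11.Fr.TT 0 t : ℂ) ≠ 0 := by
    intro t
    have e : (Pool.Agent.H11.Fr.TT 0 t : ℂ) = 1 / 2 := by
      fin_cases t <;> simp [Pool.Agent.H11.Fr.TT]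
    rw [e]
    simp [exp_ne_zero]
  have v : Pool.Agent.H11.Fr.PP 1 2 (Pool.Agent.H11.Fr.cc 0) = -1 / 16 ∧
      Pool.Agent.H11.Fr.QQ 1 2 (Pool.Agent.H11.Fr.cc 0) = 3 / 64 ∧
      Pool.Agent.H11.Fr.PP 1 5 (Pool.Agent.H11.Fr.cc 0) = -1 / 16 ∧
      Pool.Agent.H11.Fr.QQ 1 5 (Pool.Agent.H11.Fr.cc 0) = -3 / 64 ∧
      Pool.Agent.H11.Fr.ββ 2 = 665 ∧ Pool.Agent.H11.Fr.ββ 5 = -665 := by decide +kernel
  have neg : y 1 5 (a 0) < 0 := by
    rw [h3, v.2.2.1, v.2.2.2.1]; push_cast; linarith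
  refine ⟨V, i1, i2, G, i3, a 0, a 1, _, hab, Pool.Agent.H11.Fr.τ_pos, fun c c0 c1 => ⟨?_, ?_⟩,
    ?_, ?_, Pool.Agent.H11.Fr.θ 2, Pool.Agent.H11.Fr.θ 5, ⟨_, pr 2, ?_⟩, ?_, ?_, ⟨_, pr 5, neg⟩⟩
  · rw [ent, h4]; simp [c0, c1]
  · rw [ent, h4]; simp [c0, c1]
  · rw [ent, h4]; simpa [hab] using nz 0
  · rw [ent, h4]; simpa [hab.symm] using nz 1
  · rw [h3, v.1, v.2.1]; push_cast; nlinarith
  · have key : ∀ p : ℚ[X], ∃ u w : ℚ, aeval (Pool.Agent.H11.Fr.θ 2) p = u + w * √2 ∧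
        aeval (Pool.Agent.H11.Fr.θ 5) p = u - w * √2 := by
      intro p
      induction p using Polynomial.recOnHorner with
      | M0 => exact ⟨0, 0, by simp, by simp⟩
      | MC p r _ _ ih =>
        obtain ⟨u, w, e1, e2⟩ := ih
        exact ⟨u + r, w, by simp [e1]; ring, by simp [e2]; ring⟩
      | MX p _ ih =>
        obtain ⟨u, w, e1, e2⟩ := ih
        refine ⟨560 * u + 1330 * w, 560 * w + 665 * u, ?_, ?_⟩
        · rw [map_mul, e1, aeval_X, Pool.Agent.H11.Fr.θ, v.2.2.2.2.1]; push_cast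
          linear_combination (665 * w : ℝ) * rr
        · rw [map_mul, e2, aeval_X, Pool.Agent.H11.Fr.θ, v.2.2.2.2.2]; push_cast
          linear_combination (665 * w : ℝ) * rr
    obtain ⟨u, w, e1, e2⟩ := key (minpoly ℚ (Pool.Agent.H11.Fr.θ 2))
    rw [minpoly.aeval] at e1
    by_cases hw : w = 0
    · rw [e2]; rw [hw] at e1 ⊢; simpa using e1.symm
    · exfalso
      have hw' : (w : ℝ) ≠ 0 := by exact_mod_cast hw
      exact irrational_sqrt_two ⟨-u / w, by push_cast; field_simp; linarith⟩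
  · rintro ⟨z, ⟨z1, z2⟩, z3⟩
    have ev : G.adjMatrix ℝ *ᵥ (z - y 1 5) = Pool.Agent.H11.Fr.θ 5 • (z - y 1 5) := by
      rw [mulVec_sub, z1, h1, smul_sub]
    have e : (z - y 1 5) ⬝ᵥ (z - y 1 5) = 0 := by
      have a1 := z2 _ ev
      have a2 := (pr 5).2 _ ev
      rw [dotProduct_sub] at a1 a2 ⊢
      linarith
    have := congrFun (dotProduct_self_eq_zero.1 e) (a 0)
    simp only [Pi.sub_apply, Pi.zero_apply] at this
    linarith

end Pool.Agent.Results.MP_d93d44_co.NotClosed
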